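import Mathlib
import Pool.Graph.R_pool_sql_team_39128cda.H.MP_4eb715_lc.B

set_option autoImplicit false

/-! `MP_4eb715_lc`: the certificates can be found by a primitive recursive procedure. -/

namespace Pool.Agent.H314.TS

open Pool.Agent.H.MP_4eb715_lc Classical

section gen

variable {α β γ σ : Type} [Primcodable α] [Primcodable β] [Primcodable γ] [Primcodable σ]

theorem pimp {p q : α → Prop} (hp : PrimrecPred p) (hq : PrimrecPred q) :
    PrimrecPred fun a => p a → q a :=
  (hp.not.or hq).of_eq fun a => by tauto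

theorem pcomp {p : β → Prop} (hp : PrimrecPred p) {f : α → β} (hf : Primrec f) :
    PrimrecPred fun a => p (f a) := hp.comp hf

theorem peq {f g : α → β} (hf : Primrec f) (hg : Primrec g) :
    PrimrecPred fun a => f a = g a :=
  pcomp (p := fun z : β × β => z.1 = z.2) Primrec.eq (hf.pair hg)

theorem plt {f g : α → ℕ} (hf : Primrec f) (hg : Primrec g) :
    PrimrecPred fun a => f a < g a :=
  pcomp (p := fun z : ℕ × ℕ => z.1 < z.2) Primrec.nat_lt (hf.pair hg)

theorem pall {p : α → β → Prop} (hp : PrimrecPred fun z : α × β => p z.1 z.2)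
    {L : α → List β} (hL : Primrec L) : PrimrecPred fun a => ∀ x ∈ L a, p a x := by
  have h : PrimrecRel fun (x : β) (a : α) => p a x :=
    pcomp hp (Primrec.snd.pair Primrec.fst)
  exact pcomp (p := fun z : List β × α => ∀ x ∈ z.1, p z.2 x) h.forall_mem_list
    (hL.pair Primrec.id)

theorem pex {p : α → β → Prop} (hp : PrimrecPred fun z : α × β => p z.1 z.2)
    {L : α → List β} (hL : Primrec L) : PrimrecPred fun a => ∃ x ∈ L a, p a x := by
  have h : PrimrecRel fun (x : β) (a : α) => p a x :=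
    pcomp hp (Primrec.snd.pair Primrec.fst)
  exact pcomp (p := fun z : List β × α => ∃ x ∈ z.1, p z.2 x) h.exists_mem_list
    (hL.pair Primrec.id)

theorem pallt {p : α → ℕ → Prop} (hp : PrimrecPred fun z : α × ℕ => p z.1 z.2)
    {L : α → ℕ} (hL : Primrec L) : PrimrecPred fun a => ∀ x < L a, p a x :=
  (pall hp (Primrec.list_range.comp hL)).of_eq fun a => by simp

theorem pext {p : α → ℕ → Prop} (hp : PrimrecPred fun z : α × ℕ => p z.1 z.2)
    {L : α → ℕ} (hL : Primrec L) : PrimrecPred fun a => ∃ x < L a, p a x :=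
  (pex hp (Primrec.list_range.comp hL)).of_eq fun a => by simp

theorem pmem {x : α → β} (hx : Primrec x) {L : α → List β} (hL : Primrec L) :
    PrimrecPred fun a => x a ∈ L a :=
  (pex (p := fun a y => y = x a) (peq Primrec.snd (hx.comp Primrec.fst)) hL).of_eq
    fun a => by simp

theorem pprod {l : α → List β} (hl : Primrec l) {m : α → List γ} (hm : Primrec m) :
    Primrec fun a => prod (l a) (m a) := by
  refine Primrec.list_flatMap (g := fun a b => (m a).map fun c => (b, c)) hl ?_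
  exact Primrec.list_map (g := fun (z : α × β) c => (z.2, c)) (hm.comp Primrec.fst)
    ((Primrec.snd.comp Primrec.fst).pair Primrec.snd)

theorem psub {l : α → List β} (hl : Primrec l) : Primrec fun a => (l a).sublists' := by
  have : Primrec fun a => (l a).foldr (fun x L => L ++ L.map fun t => x :: t) [[]] := by
    refine Primrec.list_foldr (h := fun _ z => z.2 ++ z.2.map fun t => z.1 :: t) hl
      (Primrec.const [[]]) ?_
    refine Primrec.list_append.comp (Primrec.snd.comp Primrec.snd) ?_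
    exact Primrec.list_map (g := fun (z : α × β × List (List β)) t => z.2.1 :: t)
      (Primrec.snd.comp Primrec.snd)
      (Primrec.list_cons.comp (Primrec.fst.comp (Primrec.snd.comp Primrec.fst)) Primrec.snd)
  refine this.of_eq fun a => ?_
  induction l a with
  | nil => rfl
  | cons x t ih => rw [List.foldr_cons, ih, List.sublists'_cons]

theorem ptup {k : α → ℕ} (hk : Primrec k) {X : α → List β} (hX : Primrec X) :
    Primrec fun a => tup (k a) (X a) := by
  refine Primrec.nat_iterate (h := fun a L => (X a).flatMap fun x => L.map fun l => x :: l) hk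
    (Primrec.const [[]]) ?_
  refine Primrec.list_flatMap (g := fun (z : α × List (List β)) x => z.2.map fun l => x :: l)
    (hX.comp Primrec.fst) ?_
  exact Primrec.list_map (g := fun (z : (α × List (List β)) × β) l => z.2 :: l)
    (Primrec.snd.comp Primrec.fst)
    (Primrec.list_cons.comp (Primrec.snd.comp Primrec.fst) Primrec.snd)

theorem pflt {l : α → List β} (hl : Primrec l) {p : α → β → Prop}
    (hp : PrimrecPred fun z : α × β => p z.1 z.2) : Primrec fun a => flt (l a) (p a) := by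
  have : Primrec fun a => (l a).flatMap fun x => if p a x then [x] else [] := by
    refine Primrec.list_flatMap (g := fun a x => if p a x then [x] else []) hl ?_
    exact Primrec.ite hp (Primrec.list_cons.comp Primrec.snd (Primrec.const [])) (Primrec.const [])
  refine this.of_eq fun a => ?_
  induction l a with
  | nil => rfl
  | cons x t ih =>
    rw [List.flatMap_cons, ih, flt, flt, List.filter_cons]
    by_cases h : p a x <;> simp [h]

theorem pgetD {l : α → List β} (hl : Primrec l) {n : α → ℕ} (hn : Primrec n) (d : β) :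
    Primrec fun a => (l a).getD (n a) d := (Primrec.list_getD d).comp hl hn

theorem plen {l : α → List β} (hl : Primrec l) : Primrec fun a => (l a).length :=
  Primrec.list_length.comp hl

end gen

/-! ### The determinised automaton -/

/-- the states that occur as values -/
def sts (D : List (ℕ × List ℕ × ℕ)) : List ℕ := D.map fun d => d.2.2

/-- the transition function of the subset automaton -/
noncomputable def dl (D : List (ℕ × List ℕ × ℕ)) (σ : ℕ) (ss : List (List ℕ)) : List ℕ :=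
  flt (sts D) fun q => ∃ d ∈ D, d.1 = σ ∧ d.2.2 = q ∧ d.2.1.length = ss.length ∧
    ∀ i < ss.length, d.2.1.getD i 0 ∈ ss.getD i []

/-- acceptance -/
def Ac (E s : List ℕ) : Prop := ∃ q ∈ E, q ∈ s

theorem st_mem (D : List (ℕ × List ℕ × ℕ)) (t : Tree) : st (dl D) t ∈ (sts D).sublists' := by
  cases t with
  | node σ k c => exact flt_sub _ _

theorem mem_st {D : List (ℕ × List ℕ × ℕ)} {t : Tree} : ∀ {q : ℕ},
    q ∈ st (dl D) t ↔ Run D t q := by
  induction t with
  | node σ k c ih =>
    intro q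
    rw [st, dl, mem_flt]
    constructor
    · rintro ⟨-, ⟨τ, qs, q'⟩, hd, rfl, rfl, h1, h2⟩
      simp only [List.length_ofFn] at h1 h2
      subst h1
      refine .mk τ _ c (fun i => qs.getD i 0) q' ?_ fun i => ?_
      · have : (List.ofFn fun i : Fin qs.length => qs.getD i 0) = qs := by
          refine List.ext_getElem (by simp) fun i h1 h2 => ?_
          simp
        rw [this]
        exact hd
      · have := h2 i i.2
        rw [getD_ofFn (fun i => st (dl D) (c i)) i []] at this
        exact (ih i).1 this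
    · intro h
      cases h with
      | mk _ _ _ qs _ h1 h2 =>
        refine ⟨List.mem_map.2 ⟨_, h1, rfl⟩, _, h1, rfl, rfl, by simp, fun i hi => ?_⟩
        simp only [List.length_ofFn] at hi
        rw [show i = ((⟨i, hi⟩ : Fin k) : ℕ) from rfl, getD_ofFn, getD_ofFn]
        exact (ih _).2 (h2 _)

theorem autLang_eq (rk : List ℕ) (D : List (ℕ × List ℕ × ℕ)) (E : List ℕ) :
    autLang rk D E = {t | Ground rk t ∧ Ac E (st (dl D) t)} := by
  ext t
  simp only [autLang, Ac, Set.mem_ofPred_eq, mem_st]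

/-! ### Everything is primitive recursive -/

section pr

variable {α : Type} [Primcodable α]

abbrev S := List ℕ
abbrev T := Bool × List S

theorem psts {D : α → List (ℕ × List ℕ × ℕ)} (hD : Primrec D) : Primrec fun a => sts (D a) :=
  Primrec.list_map hD (Primrec.snd.comp (Primrec.snd.comp Primrec.snd))

theorem pdl {D : α → List (ℕ × List ℕ × ℕ)} (hD : Primrec D) {s : α → ℕ} (hs : Primrec s)
    {ss : α → List S} (hss : Primrec ss) : Primrec fun a => dl (D a) (s a) (ss a) := by
  refine pflt (p := fun a q => ∃ d ∈ D a, d.1 = s a ∧ d.2.2 = q ∧ d.2.1.length = (ss a).length ∧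
    ∀ i < (ss a).length, d.2.1.getD i 0 ∈ (ss a).getD i []) (psts hD) ?_
  refine pex (p := fun (z : α × ℕ) d => d.1 = s z.1 ∧ d.2.2 = z.2 ∧
    d.2.1.length = (ss z.1).length ∧
    ∀ i < (ss z.1).length, d.2.1.getD i 0 ∈ (ss z.1).getD i []) ?_ (hD.comp Primrec.fst)
  have a1 : Primrec fun z : (α × ℕ) × (ℕ × List ℕ × ℕ) => z.1.1 := Primrec.fst.comp Primrec.fst
  have a2 : Primrec fun z : (α × ℕ) × (ℕ × List ℕ × ℕ) => z.1.2 := Primrec.snd.comp Primrec.fst
  have d1 : Primrec fun z : (α × ℕ) × (ℕ × List ℕ × ℕ) => z.2.1 := Primrec.fst.comp Primrec.snd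
  have d2 : Primrec fun z : (α × ℕ) × (ℕ × List ℕ × ℕ) => z.2.2.1 :=
    Primrec.fst.comp (Primrec.snd.comp Primrec.snd)
  have d3 : Primrec fun z : (α × ℕ) × (ℕ × List ℕ × ℕ) => z.2.2.2 :=
    Primrec.snd.comp (Primrec.snd.comp Primrec.snd)
  refine (peq d1 (hs.comp a1)).and ((peq d3 a2).and ((peq (plen d2) (plen (hss.comp a1))).and ?_))
  refine pallt (p := fun (z : (α × ℕ) × (ℕ × List ℕ × ℕ)) i =>
    z.2.2.1.getD i 0 ∈ (ss z.1.1).getD i []) ?_ (plen (hss.comp a1))
  exact pmem (pgetD (d2.comp Primrec.fst) Primrec.snd 0)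
    (pgetD (hss.comp (a1.comp Primrec.fst)) Primrec.snd [])

theorem pAc {E s : α → S} (hE : Primrec E) (hs : Primrec s) :
    PrimrecPred fun a => Ac (E a) (s a) :=
  pex (p := fun a q => q ∈ s a) (pmem Primrec.snd (hs.comp Primrec.fst)) hE

/-- the transitions of the certificates -/
theorem pImg {D : α → List (ℕ × List ℕ × ℕ)} (hD : Primrec D) {U : α → List S}
    (hU : Primrec U) {s : α → ℕ} (hs : Primrec s) {ps : α → List T} (hps : Primrec ps)
    {X : α → List S} (hX : Primrec X) :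
    PrimrecPred fun a => Img (dl (D a)) (U a) [] (s a) (ps a) (X a) := by
  refine pall (p := fun a ss => (∀ i < (ps a).length,
    ss.getD i [] ∈ ((ps a).getD i (true, [])).2) → dl (D a) (s a) ss ∈ X a) ?_
    (ptup (plen hps) hU)
  refine pimp ?_ (pmem (pdl (hD.comp Primrec.fst) (hs.comp Primrec.fst) Primrec.snd)
    (hX.comp Primrec.fst))
  refine pallt (p := fun (z : α × List S) i =>
    z.2.getD i [] ∈ ((ps z.1).getD i (true, [])).2) ?_ (plen (hps.comp Primrec.fst))
  exact pmem (pgetD (Primrec.snd.comp Primrec.fst) Primrec.snd [])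
    (Primrec.snd.comp (pgetD (hps.comp (Primrec.fst.comp Primrec.fst)) Primrec.snd _))

theorem ptops {U : α → List S} (hU : Primrec U) : Primrec fun a => tops (U a) :=
  pprod (Primrec.const _) (psub hU)

theorem pTR {D : α → List (ℕ × List ℕ × ℕ)} (hD : Primrec D) {U : α → List S}
    (hU : Primrec U) {Z : α → List (List S)} (hZ : Primrec Z) {s : α → ℕ} (hs : Primrec s)
    {p : α → T} (hp : Primrec p) {b : α → Bool} (hb : Primrec b) {ps : α → List T}
    (hps : Primrec ps) :
    PrimrecPred fun a => TR (dl (D a)) (U a) [] (Z a) (s a) (p a) (b a) (ps a) := by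
  refine PrimrecPred.and ?_ (PrimrecPred.or ((peq hb (Primrec.const true)).and
    (PrimrecPred.and ?_ ?_)) ((peq hb (Primrec.const false)).and
      ((peq (Primrec.fst.comp hp) (Primrec.const false)).and ?_)))
  · exact pall (p := fun a q => q ∈ tops (U a)) (pmem Primrec.snd (ptops (hU.comp Primrec.fst))) hps
  · exact pall (p := fun a q => q ∈ (p a).2)
      (pmem Primrec.snd (Primrec.snd.comp (hp.comp Primrec.fst))) (pgetD hZ hs [])
  · exact pImg hD hU hs hps (pgetD hZ hs [])
  · exact pImg hD hU hs hps (Primrec.snd.comp hp)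

theorem ptrip {TL : α → List T} (hT : Primrec TL) : Primrec fun a => trip (TL a) :=
  pprod hT (pprod (Primrec.const _) hT)

theorem pposs {U : α → List S} (hU : Primrec U) {TL : α → List T} (hT : Primrec TL) :
    Primrec fun a => poss (U a) (TL a) :=
  pprod hU (pprod (psub hT) (psub hT))

theorem pCover {D : α → List (ℕ × List ℕ × ℕ)} (hD : Primrec D) {U : α → List S}
    (hU : Primrec U) {Z : α → List (List S)} (hZ : Primrec Z) {TL : α → List T}
    (hT : Primrec TL) {t0 : α → T} (h0 : Primrec t0) {s k : α → ℕ} (hs : Primrec s)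
    (hk : Primrec k) {P : α → List T} (hP : Primrec P) {Es : α → List (List (T × Bool × T))}
    (hE : Primrec Es) :
    PrimrecPred fun a => Cover (TL a) (TR (dl (D a)) (U a) [] (Z a)) (t0 a) (s a) (k a) (P a)
      (Es a) := by
  refine pall (p := fun a p => ∀ b ∈ [true, false], ∀ ps ∈ tup (k a) (TL a),
    TR (dl (D a)) (U a) [] (Z a) (s a) p b ps →
      ∃ i < k a, (p, b, ps.getD i (t0 a)) ∈ (Es a).getD i []) ?_ hP
  refine pall (p := fun (z : α × T) b => ∀ ps ∈ tup (k z.1) (TL z.1),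
    TR (dl (D z.1)) (U z.1) [] (Z z.1) (s z.1) z.2 b ps →
      ∃ i < k z.1, (z.2, b, ps.getD i (t0 z.1)) ∈ (Es z.1).getD i []) ?_ (Primrec.const _)
  refine pall (p := fun (z : (α × T) × Bool) ps =>
    TR (dl (D z.1.1)) (U z.1.1) [] (Z z.1.1) (s z.1.1) z.1.2 z.2 ps →
      ∃ i < k z.1.1, (z.1.2, z.2, ps.getD i (t0 z.1.1)) ∈ (Es z.1.1).getD i []) ?_
    (ptup (hk.comp (Primrec.fst.comp Primrec.fst)) (hT.comp (Primrec.fst.comp Primrec.fst)))
  have A : Primrec fun z : ((α × T) × Bool) × List T => z.1.1.1 :=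
    Primrec.fst.comp (Primrec.fst.comp Primrec.fst)
  have B : Primrec fun z : ((α × T) × Bool) × List T => z.1.1.2 :=
    Primrec.snd.comp (Primrec.fst.comp Primrec.fst)
  have C : Primrec fun z : ((α × T) × Bool) × List T => z.1.2 := Primrec.snd.comp Primrec.fst
  refine pimp (pTR (hD.comp A) (hU.comp A) (hZ.comp A) (hs.comp A) B C Primrec.snd) ?_
  refine pext (p := fun (z : ((α × T) × Bool) × List T) i =>
    (z.1.1.2, z.1.2, z.2.getD i (t0 z.1.1.1)) ∈ (Es z.1.1.1).getD i []) ?_ (hk.comp A)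
  have gD : Primrec fun z : (((α × T) × Bool) × List T) × ℕ =>
      z.1.2.getD z.2 (t0 z.1.1.1.1) := by
    have : Primrec fun z : (((α × T) × Bool) × List T) × ℕ =>
        (z.1.2[z.2]?).getD (t0 z.1.1.1.1) :=
      Primrec.option_getD.comp (Primrec.list_getElem?.comp (Primrec.snd.comp Primrec.fst)
        Primrec.snd) (h0.comp (A.comp Primrec.fst))
    exact this.of_eq fun z => by rw [List.getD_eq_getElem?_getD]
  exact pmem ((B.comp Primrec.fst).pair ((C.comp Primrec.fst).pair gD))
    (pgetD (hE.comp (A.comp Primrec.fst)) Primrec.snd [])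

theorem pAns {x y : α → Pos S T × ℕ} (hx : Primrec x) (hy : Primrec y)
    {E : α → List (T × Bool × T)} (hE : Primrec E) :
    PrimrecPred fun a => Ans (x a) (y a) (E a) := by
  have x1 : Primrec fun a => (x a).1.2.1 :=
    Primrec.fst.comp (Primrec.snd.comp (Primrec.fst.comp hx))
  have x2 : Primrec fun a => (x a).1.2.2 :=
    Primrec.snd.comp (Primrec.snd.comp (Primrec.fst.comp hx))
  have x3 : Primrec fun a => (x a).2 := Primrec.snd.comp hx
  have y1 : Primrec fun a => (y a).1.2.1 :=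
    Primrec.fst.comp (Primrec.snd.comp (Primrec.fst.comp hy))
  have y2 : Primrec fun a => (y a).1.2.2 :=
    Primrec.snd.comp (Primrec.snd.comp (Primrec.fst.comp hy))
  have y3 : Primrec fun a => (y a).2 := Primrec.snd.comp hy
  refine pall (p := fun a p => ∃ e ∈ E a, e.1 ∈ (x a).1.2.1 ∧ e.2.2 = p ∧ (e.2.1 = true ∨
    (e.1 ∉ (x a).1.2.2 ∧ (p ∈ (y a).1.2.2 ∨ (y a).2 < (x a).2)) ∨
      (p ∈ (y a).1.2.2 ∧ (y a).2 < (x a).2))) ?_ y1
  refine pex (p := fun (z : α × T) e => e.1 ∈ (x z.1).1.2.1 ∧ e.2.2 = z.2 ∧ (e.2.1 = true ∨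
    (e.1 ∉ (x z.1).1.2.2 ∧ (z.2 ∈ (y z.1).1.2.2 ∨ (y z.1).2 < (x z.1).2)) ∨
      (z.2 ∈ (y z.1).1.2.2 ∧ (y z.1).2 < (x z.1).2))) ?_ (hE.comp Primrec.fst)
  have A : Primrec fun z : (α × T) × (T × Bool × T) => z.1.1 := Primrec.fst.comp Primrec.fst
  have B : Primrec fun z : (α × T) × (T × Bool × T) => z.1.2 := Primrec.snd.comp Primrec.fst
  have e1 : Primrec fun z : (α × T) × (T × Bool × T) => z.2.1 := Primrec.fst.comp Primrec.snd
  have e2 : Primrec fun z : (α × T) × (T × Bool × T) => z.2.2.1 :=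
    Primrec.fst.comp (Primrec.snd.comp Primrec.snd)
  have e3 : Primrec fun z : (α × T) × (T × Bool × T) => z.2.2.2 :=
    Primrec.snd.comp (Primrec.snd.comp Primrec.snd)
  exact (pmem e1 (x1.comp A)).and ((peq e3 B).and ((peq e2 (Primrec.const true)).or
    (((pmem e1 (x2.comp A)).not.and ((pmem B (y2.comp A)).or (plt (y3.comp A) (x3.comp A)))).or
      ((pmem B (y2.comp A)).and (plt (y3.comp A) (x3.comp A))))))

theorem pStepOK {rk : α → List ℕ} (hr : Primrec rk) {D : α → List (ℕ × List ℕ × ℕ)}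
    (hD : Primrec D) {U : α → List S} (hU : Primrec U) {Z : α → List (List S)} (hZ : Primrec Z)
    {TL : α → List T} (hT : Primrec TL) {t0 : α → T} (h0 : Primrec t0)
    {Rc : α → List S} (hR : Primrec Rc) {W : α → List (Pos S T × ℕ)} (hW : Primrec W)
    {x : α → Pos S T × ℕ} (hx : Primrec x) :
    PrimrecPred fun a => StepOK (rk a) (dl (D a)) (TL a) (TR (dl (D a)) (U a) [] (Z a)) []
      (t0 a) (Rc a) (W a) (x a) := by
  have x1 : Primrec fun a => (x a).1.1 := Primrec.fst.comp (Primrec.fst.comp hx)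
  have x2 : Primrec fun a => (x a).1.2.1 :=
    Primrec.fst.comp (Primrec.snd.comp (Primrec.fst.comp hx))
  refine pallt (p := fun a σ => ∀ ss ∈ tup ((rk a).getD σ 0) (Rc a), dl (D a) σ ss = (x a).1.1 →
    ∀ Es ∈ tup ((rk a).getD σ 0) (trip (TL a)).sublists',
      Cover (TL a) (TR (dl (D a)) (U a) [] (Z a)) (t0 a) σ ((rk a).getD σ 0) (x a).1.2.1 Es →
      ∃ y ∈ W a, ∃ i < (rk a).getD σ 0, y.1.1 = ss.getD i [] ∧ Ans (x a) y (Es.getD i []))
    ?_ (plen hr)
  have F1 : Primrec fun z : α × ℕ => z.1 := Primrec.fst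
  have S1 : Primrec fun z : α × ℕ => z.2 := Primrec.snd
  have rg : Primrec fun z : α × ℕ => (rk z.1).getD z.2 0 := pgetD (hr.comp F1) S1 0
  refine pall (p := fun (z : α × ℕ) ss => dl (D z.1) z.2 ss = (x z.1).1.1 →
    ∀ Es ∈ tup ((rk z.1).getD z.2 0) (trip (TL z.1)).sublists',
      Cover (TL z.1) (TR (dl (D z.1)) (U z.1) [] (Z z.1)) (t0 z.1) z.2 ((rk z.1).getD z.2 0)
        (x z.1).1.2.1 Es →
      ∃ y ∈ W z.1, ∃ i < (rk z.1).getD z.2 0, y.1.1 = ss.getD i [] ∧
        Ans (x z.1) y (Es.getD i [])) ?_ (ptup rg (hR.comp F1))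
  have F2 : Primrec fun z : (α × ℕ) × List S => z.1 := Primrec.fst
  have S2 : Primrec fun z : (α × ℕ) × List S => z.2 := Primrec.snd
  refine pimp (peq (pdl (hD.comp (F1.comp F2)) (S1.comp F2) S2) (x1.comp (F1.comp F2))) ?_
  refine pall (p := fun (z : (α × ℕ) × List S) Es =>
      Cover (TL z.1.1) (TR (dl (D z.1.1)) (U z.1.1) [] (Z z.1.1)) (t0 z.1.1) z.1.2
        ((rk z.1.1).getD z.1.2 0) (x z.1.1).1.2.1 Es →
      ∃ y ∈ W z.1.1, ∃ i < (rk z.1.1).getD z.1.2 0, y.1.1 = z.2.getD i [] ∧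
        Ans (x z.1.1) y (Es.getD i [])) ?_
    (ptup (rg.comp F2) (psub (ptrip (hT.comp (F1.comp F2)))))
  have F3 : Primrec fun z : ((α × ℕ) × List S) × List (List (T × Bool × T)) => z.1 :=
    Primrec.fst
  have S3 : Primrec fun z : ((α × ℕ) × List S) × List (List (T × Bool × T)) => z.2 :=
    Primrec.snd
  have A3 := F1.comp (F2.comp F3)
  refine pimp (pCover (hD.comp A3) (hU.comp A3) (hZ.comp A3) (hT.comp A3) (h0.comp A3)
    (S1.comp (F2.comp F3)) (rg.comp (F2.comp F3)) (x2.comp A3) S3) ?_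
  refine pex (p := fun (z : ((α × ℕ) × List S) × List (List (T × Bool × T))) y =>
      ∃ i < (rk z.1.1.1).getD z.1.1.2 0, y.1.1 = z.1.2.getD i [] ∧
        Ans (x z.1.1.1) y (z.2.getD i [])) ?_ (hW.comp A3)
  have F4 : Primrec fun z : (((α × ℕ) × List S) × List (List (T × Bool × T))) ×
      (Pos S T × ℕ) => z.1 := Primrec.fst
  have S4 : Primrec fun z : (((α × ℕ) × List S) × List (List (T × Bool × T))) ×
      (Pos S T × ℕ) => z.2 := Primrec.snd
  refine pext (p := fun (z : (((α × ℕ) × List S) × List (List (T × Bool × T))) ×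
      (Pos S T × ℕ)) i => z.2.1.1 = z.1.1.2.getD i [] ∧
        Ans (x z.1.1.1.1) z.2 (z.1.2.getD i [])) ?_ (rg.comp (F2.comp (F3.comp F4)))
  have F5 : Primrec fun z : ((((α × ℕ) × List S) × List (List (T × Bool × T))) ×
      (Pos S T × ℕ)) × ℕ => z.1 := Primrec.fst
  have S5 : Primrec fun z : ((((α × ℕ) × List S) × List (List (T × Bool × T))) ×
      (Pos S T × ℕ)) × ℕ => z.2 := Primrec.snd
  exact (peq (Primrec.fst.comp (Primrec.fst.comp (S4.comp F5)))
    (pgetD (S2.comp (F3.comp (F4.comp F5))) S5 [])).and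
    (pAns (hx.comp (A3.comp (F4.comp F5))) (S4.comp F5) (pgetD (S3.comp (F4.comp F5)) S5 []))

theorem pCert {rk : α → List ℕ} (hr : Primrec rk) {D : α → List (ℕ × List ℕ × ℕ)}
    (hD : Primrec D) {U : α → List S} (hU : Primrec U) {E : α → List ℕ} (hE : Primrec E)
    {Z : α → List (List S)} (hZ : Primrec Z)
    {TL : α → List T} (hT : Primrec TL) {t0 : α → T} (h0 : Primrec t0) :
    PrimrecPred fun a => Cert (rk a) (dl (D a)) (U a) (Ac (E a)) (TL a)
      (TR (dl (D a)) (U a) [] (Z a)) [] (t0 a) := by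
  refine pex (p := fun a Rc => (∀ σ < (rk a).length, ∀ ss ∈ tup ((rk a).getD σ 0) Rc,
      dl (D a) σ ss ∈ Rc) ∧
    ∃ W ∈ (prod (poss (U a) (TL a)) (List.range ((poss (U a) (TL a)).length + 1))).sublists',
      (∀ s ∈ Rc, Ac (E a) s → ∃ x ∈ W, x.1 = (s, [t0 a], [t0 a])) ∧
        ∀ x ∈ W, StepOK (rk a) (dl (D a)) (TL a) (TR (dl (D a)) (U a) [] (Z a)) [] (t0 a) Rc W x)
    ?_ (psub hU)
  have F1 : Primrec fun z : α × List S => z.1 := Primrec.fst
  have S1 : Primrec fun z : α × List S => z.2 := Primrec.snd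
  refine PrimrecPred.and ?_ ?_
  · refine pallt (p := fun (z : α × List S) σ => ∀ ss ∈ tup ((rk z.1).getD σ 0) z.2,
      dl (D z.1) σ ss ∈ z.2) ?_ (plen (hr.comp F1))
    have F2 : Primrec fun z : (α × List S) × ℕ => z.1 := Primrec.fst
    have S2 : Primrec fun z : (α × List S) × ℕ => z.2 := Primrec.snd
    refine pall (p := fun (z : (α × List S) × ℕ) ss => dl (D z.1.1) z.2 ss ∈ z.1.2) ?_
      (ptup (pgetD (hr.comp (F1.comp F2)) S2 0) (S1.comp F2))
    have F3 : Primrec fun z : ((α × List S) × ℕ) × List S => z.1 := Primrec.fst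
    exact pmem (pdl (hD.comp (F1.comp (F2.comp F3))) (S2.comp F3) Primrec.snd)
      (S1.comp (F2.comp F3))
  · have pp := pposs (hU.comp F1) (hT.comp F1)
    refine pex (p := fun (z : α × List S) W =>
      (∀ s ∈ z.2, Ac (E z.1) s → ∃ x ∈ W, x.1 = (s, [t0 z.1], [t0 z.1])) ∧
        ∀ x ∈ W, StepOK (rk z.1) (dl (D z.1)) (TL z.1) (TR (dl (D z.1)) (U z.1) [] (Z z.1)) []
          (t0 z.1) z.2 W x) ?_
      (psub (pprod pp (Primrec.list_range.comp (Primrec.succ.comp (plen pp)))))
    have F2 : Primrec fun z : (α × List S) × List (Pos S T × ℕ) => z.1 := Primrec.fst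
    have S2 : Primrec fun z : (α × List S) × List (Pos S T × ℕ) => z.2 := Primrec.snd
    refine PrimrecPred.and ?_ ?_
    · refine pall (p := fun (z : (α × List S) × List (Pos S T × ℕ)) s => Ac (E z.1.1) s →
        ∃ x ∈ z.2, x.1 = (s, [t0 z.1.1], [t0 z.1.1])) ?_ (S1.comp F2)
      have F3 : Primrec fun z : ((α × List S) × List (Pos S T × ℕ)) × S => z.1 := Primrec.fst
      have S3 : Primrec fun z : ((α × List S) × List (Pos S T × ℕ)) × S => z.2 := Primrec.snd
      refine pimp (pAc (hE.comp (F1.comp (F2.comp F3))) S3) ?_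
      refine pex (p := fun (z : ((α × List S) × List (Pos S T × ℕ)) × S) x =>
        x.1 = (z.2, [t0 z.1.1.1], [t0 z.1.1.1])) ?_ (S2.comp F3)
      have F4 : Primrec fun z : (((α × List S) × List (Pos S T × ℕ)) × S) × (Pos S T × ℕ) => z.1 :=
        Primrec.fst
      have S4 : Primrec fun z : (((α × List S) × List (Pos S T × ℕ)) × S) × (Pos S T × ℕ) => z.2 :=
        Primrec.snd
      have tt : Primrec fun z : (((α × List S) × List (Pos S T × ℕ)) × S) × (Pos S T × ℕ) =>
          [t0 z.1.1.1.1] :=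
        Primrec.list_cons.comp (h0.comp (F1.comp (F2.comp (F3.comp F4)))) (Primrec.const [])
      exact peq (Primrec.fst.comp S4) ((S3.comp F4).pair (tt.pair tt))
    · refine pall (p := fun (z : (α × List S) × List (Pos S T × ℕ)) x =>
        StepOK (rk z.1.1) (dl (D z.1.1)) (TL z.1.1) (TR (dl (D z.1.1)) (U z.1.1) [] (Z z.1.1)) []
          (t0 z.1.1) z.1.2 z.2 x) ?_ S2
      have F3 : Primrec fun z : ((α × List S) × List (Pos S T × ℕ)) × (Pos S T × ℕ) => z.1 :=
        Primrec.fst
      have S3 : Primrec fun z : ((α × List S) × List (Pos S T × ℕ)) × (Pos S T × ℕ) => z.2 :=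
        Primrec.snd
      have A3 := F1.comp (F2.comp F3)
      exact pStepOK (hr.comp A3) (hD.comp A3) (hU.comp A3) (hZ.comp A3) (hT.comp A3)
        (h0.comp A3) (S1.comp (F2.comp F3)) (S2.comp F3) S3

/-- It is decidable by a primitive recursive procedure whether the language of a tree automaton
is a tree substitution language. -/
theorem isTSL_prim : PrimrecPred fun x : List ℕ × List (ℕ × List ℕ × ℕ) × List ℕ =>
    IsTSL x.1 (autLang x.1 x.2.1 x.2.2) := by
  have h : ∀ x : List ℕ × List (ℕ × List ℕ × ℕ) × List ℕ,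
      (∃ Z ∈ tup x.1.length (sts x.2.1).sublists'.sublists',
        Cert x.1 (dl x.2.1) (sts x.2.1).sublists' (Ac x.2.2) (tops (sts x.2.1).sublists')
          (TR (dl x.2.1) (sts x.2.1).sublists' [] Z) [] (true, flt (sts x.2.1).sublists'
            (Ac x.2.2))) ↔ IsTSL x.1 (autLang x.1 x.2.1 x.2.2) := fun x => by
    rw [autLang_eq]
    exact (tsl_iff (st_mem x.2.1)).symm
  refine PrimrecPred.of_eq ?_ h
  have r1 : Primrec fun x : List ℕ × List (ℕ × List ℕ × ℕ) × List ℕ => x.1 := Primrec.fst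
  have r2 : Primrec fun x : List ℕ × List (ℕ × List ℕ × ℕ) × List ℕ => x.2.1 :=
    Primrec.fst.comp Primrec.snd
  have r3 : Primrec fun x : List ℕ × List (ℕ × List ℕ × ℕ) × List ℕ => x.2.2 :=
    Primrec.snd.comp Primrec.snd
  have rU := psub (psts r2)
  refine pex (p := fun (x : List ℕ × List (ℕ × List ℕ × ℕ) × List ℕ) Z =>
    Cert x.1 (dl x.2.1) (sts x.2.1).sublists' (Ac x.2.2) (tops (sts x.2.1).sublists')
          (TR (dl x.2.1) (sts x.2.1).sublists' [] Z) [] (true, flt (sts x.2.1).sublists'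
            (Ac x.2.2))) ?_ (ptup (plen r1) (psub rU))
  have F1 : Primrec fun z : (List ℕ × List (ℕ × List ℕ × ℕ) × List ℕ) × List (List S) => z.1 :=
    Primrec.fst
  refine pCert (r1.comp F1) (r2.comp F1) (rU.comp F1) (r3.comp F1) Primrec.snd
    (ptops (rU.comp F1)) ?_
  refine (Primrec.const true).pair (pflt (p := fun (z : (List ℕ × List (ℕ × List ℕ × ℕ) ×
    List ℕ) × List (List S)) s => Ac z.1.2.2 s) (rU.comp F1) ?_)
  exact pAc (r3.comp (F1.comp Primrec.fst)) Primrec.snd

end pr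

end Pool.Agent.H314.TS
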